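import Mathlib

/-!
Polygonal simple closed quasigeodesics on the surface of a tetrahedron.
-/

set_option autoImplicit false
open Set Real EuclideanGeometry

namespace Pool.Agent.Q155.Quasi

/-- Euclidean space -/
abbrev E3 := EuclideanSpace ℝ (Fin 3)

/-- the face of the tetrahedron with vertices `P` opposite to the vertex `P f` -/
def face (P : Fin 4 → E3) (f : Fin 4) : Set E3 := convexHull ℝ (P '' {j | j ≠ f})

/-- the total surface angle at the vertex `P a` -/
noncomputable def totalAngle (P : Fin 4 → E3) (a : Fin 4) : ℝ :=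
  ∑ b, ∑ c, if b < c ∧ b ≠ a ∧ c ≠ a then ∠ (P b) (P a) (P c) else 0

/-- the surface angle at the vertex `P a`, on one side, between the directions to the point `x` of
the face `f` and to the point `y` of the face `g`: inside the face if `f = g`, and otherwise
across the edge from `P a` to `P b` that the two faces share -/
noncomputable def vertexAngle (P : Fin 4 → E3) (a f g : Fin 4) (x y : E3) : ℝ :=
  if f = g then ∠ x (P a) y else
    ∑ b, if b ≠ a ∧ b ≠ f ∧ b ≠ g then ∠ x (P a) (P b) + ∠ (P b) (P a) y else 0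

/-- the condition at a node `z` that is a vertex; the curve arrives from `x` in the face `f` and
leaves to `y` in the face `g` -/
def VertexNode (P : Fin 4 → E3) (x : E3) (f : Fin 4) (z : E3) (g : Fin 4) (y : E3) : Prop :=
  ∃ a, a ≠ f ∧ a ≠ g ∧ z = P a ∧ vertexAngle P a f g x y ≤ π ∧
    totalAngle P a - vertexAngle P a f g x y ≤ π

/-- the condition at a node `z` that is an inner point of an edge; the curve arrives from `x` in
the face `f` and leaves to `y` in the other face `g` at this edge -/
def EdgeNode (P : Fin 4 → E3) (x : E3) (f : Fin 4) (z : E3) (g : Fin 4) (y : E3) : Prop :=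
  ∃ a b, a ≠ b ∧ a ≠ f ∧ a ≠ g ∧ b ≠ f ∧ b ≠ g ∧ f ≠ g ∧ z ∈ openSegment ℝ (P a) (P b) ∧
    ∠ x z (P a) + ∠ (P a) z y ≤ π ∧ ∠ x z (P b) + ∠ (P b) z y ≤ π

/-- `C` is a simple closed quasigeodesic on the surface of the tetrahedron with vertices `P`: a
simple closed polygon with nodes `x 0, …, x (N - 1)`, the side from `x i` to `x (i + 1)` lying in
the face `F i`, such that both surface angles at every node are at most `π`. -/
def IsSimpleClosedQuasigeodesic (P : Fin 4 → E3) (C : Set E3) : Prop :=
  ∃ (n : ℕ) (x : Fin (n + 3) → E3) (F : Fin (n + 3) → Fin 4),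
    C = ⋃ i, segment ℝ (x i) (x (i + 1)) ∧
    (∀ i, x i ≠ x (i + 1)) ∧
    (∀ i j, i ≠ j → ∀ p ∈ segment ℝ (x i) (x (i + 1)), p ∈ segment ℝ (x j) (x (j + 1)) →
      (j = i + 1 ∧ p = x j) ∨ (i = j + 1 ∧ p = x i)) ∧
    (∀ i, segment ℝ (x i) (x (i + 1)) ⊆ face P (F i)) ∧
    (∀ i, VertexNode P (x i) (F i) (x (i + 1)) (F (i + 1)) (x (i + 2)) ∨
      EdgeNode P (x i) (F i) (x (i + 1)) (F (i + 1)) (x (i + 2)))

end Pool.Agent.Q155.Quasi
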